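import Mathlib
import Pool.Agent.H11.Split

theorem Pool.Agent.Results.MP_59a3d4_lc.NoSplitting.result :
    ∀ (F : Type) [Field F], ∃ V₁ V₂ : Submodule F (ℕ →₀ F),
      (∀ x, x ∈ V₁ ↔ ∀ n, x (2 * n) + x (2 * n + 1) = 0) ∧
      (∀ x, x ∈ V₂ ↔ x 1 = 0 ∧ ∀ n, x (2 * n + 3) = x (2 * n) + x (2 * n + 1)) ∧
      IsCompl V₁ V₂ ∧
      ∀ S : Set ℕ,
        ¬ (IsCompl V₁ (Submodule.span F ((fun k => Finsupp.single k (1 : F)) '' S)) ∧
          IsCompl V₂ (Submodule.span F ((fun k => Finsupp.single k (1 : F)) '' Sᶜ))) :=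
  fun F _ => Pool.Agent.H11.Split.main F
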